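import Pool.Agent.Helper7.HilbertD

open Pool.Agent.Helper7.Hilbert

/-- For `p = q = 4/3` there is a constant `C < K(p,q)` for which the integral inequality (I)
holds, so `K(p,q)` is not best possible in (I). -/
theorem Pool.Agent.Results.MP_27276c_an.IntegralNotSharp.result :
    ∃ p q C : ℝ, 1 < p ∧ 1 < q ∧ 1 < 1 / p + 1 / q ∧ p = 4 / 3 ∧ q = 4 / 3 ∧
      0 < C ∧ C < K p q ∧ IntegralIneq p q C := by
  refine ⟨4 / 3, 4 / 3, Real.sqrt (8 / 9 * Real.pi), by norm_num, by norm_num, by norm_num, rfl,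
    rfl, Real.sqrt_pos.mpr (by positivity), C_lt, integral_ineq⟩
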